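import Mathlib
import Pool.Agent.H498Z.Flex.Core

set_option autoImplicit false

namespace Pool.Agent.Results.MP_1bc7ab_co.ANotFlexible

/-- For every `ε > 0` there are a `2`-degenerate graph, lists of size `3` and a request
(domain `D`, requested colours `r`) that is not `ε`-satisfiable. -/
theorem result : ∀ ε : ℝ, 0 < ε →
    ∃ (n : ℕ) (G : SimpleGraph (Fin n)) (L : Fin n → Finset ℕ) (D : Finset (Fin n))
      (r : Fin n → ℕ),
      (∀ S : Finset (Fin n), S.Nonempty → ∃ v ∈ S, ({u : Fin n | u ∈ S ∧ G.Adj v u}).ncard ≤ 2) ∧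
      (∀ v, (L v).card = 3) ∧ (∀ v ∈ D, r v ∈ L v) ∧
      ∀ φ : Fin n → ℕ, (∀ v, φ v ∈ L v) → (∀ u v, G.Adj u v → φ u ≠ φ v) →
        (((D.filter (fun v => φ v = r v)).card : ℕ) : ℝ) < ε * (D.card : ℕ) := by
  intro ε hε
  obtain ⟨k, hk⟩ := exists_nat_gt (3 / ε)
  refine ⟨4 * k + 4, H498Z.Flex.G _, fun v => H498Z.Flex.L v, H498Z.Flex.D k,
    fun v => H498Z.Flex.req v, H498Z.Flex.degenerate _, fun v => H498Z.Flex.card_L v,
    H498Z.Flex.req_mem k, fun φ hL hP => ?_⟩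
  have h3 : (((H498Z.Flex.D k).filter (fun v => φ v = H498Z.Flex.req v)).card : ℝ) ≤ 3 := by
    exact_mod_cast H498Z.Flex.core k φ hL hP
  rw [H498Z.Flex.card_D]
  rw [div_lt_iff₀ hε] at hk
  linarith

end Pool.Agent.Results.MP_1bc7ab_co.ANotFlexible
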